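import Pool.Agent.Helper72.MK.GoalsT

/-!
# MK-LOG2: logarithms on spheres of dimension at least two
-/

open Set Filter Topology

noncomputable section

namespace Pool.Agent.Helper73.MK

open Pool.Agent.Helper72.MK

/-- A logarithm on a hemisphere, as a function on the whole space. -/
theorem logHem (h1 : LOG1Stmt) (h2 : HEMStmt) {E : Type} [NormedAddCommGroup E]
    [InnerProductSpace ℝ E] [FiniteDimensional ℝ E] (N : E) (hN : ‖N‖ = 1) (f : E → ℂ)
    (hf : ContinuousOn f (SS E)) (h0 : ∀ x ∈ SS E, f x ≠ 0) :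
    ∃ P : E → ℂ, ContinuousOn P (Hem N) ∧ ∀ x ∈ Hem N, Complex.exp (P x) = f x := by
  classical
  obtain ⟨hc, hk⟩ := h2 E N hN
  have hsub : Hem N ⊆ SS E := fun x hx => hx.1
  obtain ⟨θ, hθ, hexp⟩ := h1 (Hem N) (fun x => f x)
    (continuousOn_iff_continuous_domRestrict.1 (hf.mono hsub)) (fun x => h0 x (hsub x.2))
  refine ⟨fun x => if h : x ∈ Hem N then θ ⟨x, h⟩ else 0, ?_, ?_⟩
  · rw [continuousOn_iff_continuous_domRestrict]
    have : (Hem N).domRestrict (fun x => if h : x ∈ Hem N then θ ⟨x, h⟩ else 0) = θ := by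
      funext x
      show (if h : (x : E) ∈ Hem N then θ ⟨x, h⟩ else 0) = θ x
      rw [dif_pos x.2]
    rw [this]
    exact hθ
  · intro x hx
    simp only [dif_pos hx]
    exact hexp ⟨x, hx⟩

/-- The equator of a sphere of dimension at least two is connected. -/
theorem equator {E : Type} [NormedAddCommGroup E] [InnerProductSpace ℝ E]
    [FiniteDimensional ℝ E] (hE : 3 ≤ Module.finrank ℝ E) (N : E) (hN : ‖N‖ = 1) :
    IsConnected {x : E | ‖x‖ = 1 ∧ inner ℝ N x = 0} := by
  have hN0 : N ≠ 0 := by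
    intro h
    rw [h, norm_zero] at hN
    exact zero_ne_one hN
  have hfr : 2 ≤ Module.finrank ℝ (ℝ ∙ N)ᗮ := by
    have h := Submodule.finrank_add_finrank_orthogonal (ℝ ∙ N)
    rw [finrank_span_singleton hN0] at h
    omega
  have hrank : 1 < Module.rank ℝ (ℝ ∙ N)ᗮ := by
    rw [← Module.finrank_eq_rank]
    exact_mod_cast (by omega : 1 < Module.finrank ℝ (ℝ ∙ N)ᗮ)
  have hs : IsConnected (Metric.sphere (0 : (ℝ ∙ N)ᗮ) 1) := isConnected_sphere hrank 0 zero_le_one
  have himg : {x : E | ‖x‖ = 1 ∧ inner ℝ N x = 0} =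
      (fun y : (ℝ ∙ N)ᗮ => (y : E)) '' (Metric.sphere (0 : (ℝ ∙ N)ᗮ) 1) := by
    ext x
    constructor
    · rintro ⟨hx1, hx2⟩
      refine ⟨⟨x, (Submodule.mem_orthogonal_singleton_iff_inner_right).2 hx2⟩, ?_, rfl⟩
      rw [mem_sphere_zero_iff_norm]
      exact hx1
    · rintro ⟨y, hy, rfl⟩
      refine ⟨?_, (Submodule.mem_orthogonal_singleton_iff_inner_right).1 y.2⟩
      rw [mem_sphere_zero_iff_norm] at hy
      exact hy
  rw [himg]
  exact hs.image _ continuous_subtype_val.continuousOn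

/-- A continuous function with `exp D = 1` on a connected set is constant. -/
theorem const_of_exp {E : Type} [TopologicalSpace E] {Q : Set E} (hQ : IsPreconnected Q)
    {D : E → ℂ} (hD : ContinuousOn D Q) (h1 : ∀ x ∈ Q, Complex.exp (D x) = 1) {x y : E}
    (hx : x ∈ Q) (hy : y ∈ Q) : D x = D y := by
  have hg : ContinuousOn (fun z => (D z).im / (2 * Real.pi)) Q :=
    (Complex.continuous_im.comp_continuousOn hD).div_const _
  have hint : ∀ z ∈ Q, ∃ n : ℤ, D z = n * (2 * Real.pi * Complex.I) ∧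
      (D z).im / (2 * Real.pi) = n := by
    intro z hz
    obtain ⟨n, hn⟩ := Complex.exp_eq_one_iff.1 (h1 z hz)
    refine ⟨n, hn, ?_⟩
    have him : (D z).im = n * (2 * Real.pi) := by
      rw [hn]
      simp
    rw [him]
    field_simp
  obtain ⟨n, hn, hn'⟩ := hint x hx
  obtain ⟨m, hm, hm'⟩ := hint y hy
  have key : ∀ (a b : E), a ∈ Q → b ∈ Q → ∀ p q : ℤ, (D a).im / (2 * Real.pi) = p →
      (D b).im / (2 * Real.pi) = q → ¬ p < q := by
    intro a b ha hb p q hp hq hlt
    have hmem : ((p : ℝ) + 1 / 2) ∈ Icc ((D a).im / (2 * Real.pi)) ((D b).im / (2 * Real.pi)) := by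
      rw [hp, hq]
      have : (p : ℝ) + 1 ≤ q := by exact_mod_cast hlt
      constructor <;> linarith
    obtain ⟨z, hz, hz'⟩ := hQ.intermediate_value ha hb hg hmem
    obtain ⟨k, -, hk⟩ := hint z hz
    simp only at hz'
    rw [hk] at hz'
    have h2 : (2 * k : ℝ) = 2 * p + 1 := by linarith
    have h3 : (2 * k : ℤ) = 2 * p + 1 := by exact_mod_cast h2
    omega
  have hnm : n = m := le_antisymm (not_lt.1 (key y x hy hx m n hm' hn'))
    (not_lt.1 (key x y hx hy n m hn' hm'))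
  rw [hn, hm, hnm]

theorem log2 (h1 : LOG1Stmt) (h2 : HEMStmt) : LOG2Stmt := by
  classical
  intro E _ _ _ hE f hf h0
  have hnt : Nontrivial E := Module.nontrivial_of_finrank_pos (R := ℝ) (by omega)
  obtain ⟨N, hN⟩ := exists_norm_eq E (zero_le_one (α := ℝ))
  obtain ⟨P, hP, hPe⟩ := logHem h1 h2 N hN f hf h0
  obtain ⟨M, hM, hMe⟩ := logHem h1 h2 (-N) (by rw [norm_neg, hN]) f hf h0
  have hQ := equator hE N hN
  have hQP : {x : E | ‖x‖ = 1 ∧ inner ℝ N x = 0} ⊆ Hem N := fun x hx => ⟨hx.1, hx.2.ge⟩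
  have hQM : {x : E | ‖x‖ = 1 ∧ inner ℝ N x = 0} ⊆ Hem (-N) := fun x hx => by
    refine ⟨hx.1, ?_⟩
    rw [inner_neg_left, hx.2, neg_zero]
  obtain ⟨x₀, hx₀⟩ := hQ.nonempty
  have hconst : ∀ x ∈ {x : E | ‖x‖ = 1 ∧ inner ℝ N x = 0}, P x - M x = P x₀ - M x₀ := by
    intro x hx
    refine const_of_exp (D := fun x => P x - M x) hQ.isPreconnected
      ((hP.mono hQP).sub (hM.mono hQM)) ?_ hx hx₀
    intro z hz
    show Complex.exp (P z - M z) = 1
    rw [Complex.exp_sub, hPe z (hQP hz), hMe z (hQM hz), div_self (h0 z hz.1)]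
  have hc : Complex.exp (P x₀ - M x₀) = 1 := by
    rw [Complex.exp_sub, hPe x₀ (hQP hx₀), hMe x₀ (hQM hx₀), div_self (h0 x₀ hx₀.1)]
  have hneg : ∀ x ∈ Hem (-N), inner ℝ N x ≤ 0 := by
    intro x hx
    have h := hx.2
    rw [inner_neg_left] at h
    linarith
  have hθM : ∀ x ∈ Hem (-N), (if 0 ≤ inner ℝ N x then P x else M x + (P x₀ - M x₀)) =
      M x + (P x₀ - M x₀) := by
    intro x hx
    split_ifs with h
    · have hxQ : x ∈ {x : E | ‖x‖ = 1 ∧ inner ℝ N x = 0} := ⟨hx.1, le_antisymm (hneg x hx) h⟩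
      rw [← hconst x hxQ]
      ring
    · rfl
  have hθP : ∀ x ∈ Hem N, (if 0 ≤ inner ℝ N x then P x else M x + (P x₀ - M x₀)) = P x := by
    intro x hx
    rw [if_pos hx.2]
  have hcover : SS E = Hem N ∪ Hem (-N) := by
    ext x
    constructor
    · intro hx
      rcases le_total 0 (inner ℝ N x) with h | h
      · exact Or.inl ⟨hx, h⟩
      · refine Or.inr ⟨hx, ?_⟩
        rw [inner_neg_left]
        linarith
    · rintro (hx | hx)
      · exact hx.1
      · exact hx.1
  have hclosed : ∀ N : E, IsClosed (Hem N) := by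
    intro N
    have e : Hem N = {x : E | ‖x‖ = 1} ∩ {x : E | 0 ≤ inner ℝ N x} := rfl
    rw [e]
    exact (isClosed_eq continuous_norm continuous_const).inter
      (isClosed_le continuous_const (continuous_const.inner continuous_id))
  refine ⟨fun x => if 0 ≤ inner ℝ N x then P x else M x + (P x₀ - M x₀), ?_, ?_⟩
  · rw [hcover]
    refine ContinuousOn.union_of_isClosed ?_ ?_ (hclosed N) (hclosed (-N))
    · exact hP.congr hθP
    · exact (hM.add continuousOn_const).congr hθM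
  · intro x hx
    rw [hcover] at hx
    rcases hx with hx | hx
    · show Complex.exp (if 0 ≤ inner ℝ N x then P x else M x + (P x₀ - M x₀)) = f x
      rw [hθP x hx, hPe x hx]
    · show Complex.exp (if 0 ≤ inner ℝ N x then P x else M x + (P x₀ - M x₀)) = f x
      rw [hθM x hx, Complex.exp_add, hc, mul_one, hMe x hx]

end Pool.Agent.Helper73.MK
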